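import Pool.Agent.Helper35.GL.Stm

/-! Package GC: the rank of `E(A) ∪ B` grows at most by the dimensions. -/

set_option autoImplicit false

namespace Pool.Agent.Helper38.GL

open Pool.Agent.Helper35.EM Pool.Agent.Helper56.EM Pool.Agent.Helper56.SA Pool.Agent.Helper35.GF
  Pool.Agent.Helper35.GL Set Module Submodule

theorem E_zero (F : Pool.Agent.Helper35.GF.ExpField) : F.E 0 = 1 := by
  have h0 : (0 : ℂ) ∈ F.K := zero_mem _
  obtain ⟨x, hx, hx1⟩ := F.E_surj 1 (one_mem _) one_ne_zero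
  have h2 := F.E_add x hx 0 h0
  rw [add_zero, hx1, one_mul] at h2
  exact h2.symm

theorem E_neg (F : Pool.Agent.Helper35.GF.ExpField) {a : ℂ} (ha : a ∈ F.K) : F.E (-a) = (F.E a)⁻¹ := by
  have h := F.E_add a ha (-a) (neg_mem ha)
  rw [add_neg_cancel, E_zero] at h
  exact (inv_eq_of_mul_eq_one_right h.symm).symm

theorem E_nat (F : Pool.Agent.Helper35.GF.ExpField) {a : ℂ} (ha : a ∈ F.K) (n : ℕ) : F.E (n * a) = F.E a ^ n := by
  induction n with
  | zero => rw [Nat.cast_zero, zero_mul, pow_zero, E_zero]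
  | succ n ih =>
    have h1 : ((n + 1 : ℕ) : ℂ) * a = n * a + a := by push_cast; ring
    rw [h1, F.E_add _ (mul_mem (natCast_mem _ n) ha) _ ha, ih, pow_succ]

theorem E_int (F : Pool.Agent.Helper35.GF.ExpField) {a : ℂ} (ha : a ∈ F.K) (n : ℤ) : F.E (n * a) = F.E a ^ n := by
  obtain ⟨m, rfl | rfl⟩ := n.eq_nat_or_neg
  · rw [zpow_natCast, Int.cast_natCast, E_nat F ha]
  · rw [zpow_neg, zpow_natCast, Int.cast_neg, Int.cast_natCast, neg_mul,
      E_neg F (mul_mem (natCast_mem _ m) ha), E_nat F ha]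

theorem E_rat_pow (F : Pool.Agent.Helper35.GF.ExpField) {a : ℂ} (ha : a ∈ F.K) (q : ℚ) :
    F.E ((q : ℂ) * a) ^ q.den = F.E a ^ q.num := by
  have hq : (q : ℂ) * a ∈ F.K := mul_mem (SubfieldClass.ratCast_mem F.K q) ha
  rw [← E_nat F hq, ← E_int F ha]
  congr 1
  rw [← mul_assoc]
  congr 1
  have h := Rat.mul_den_eq_num q
  rw [mul_comm]
  exact_mod_cast h

/-- `E (q a)` is algebraic over `E a`. -/
theorem cl_E_smul (F : Pool.Agent.Helper35.GF.ExpField) {s : Set ℂ} {a : ℂ} (ha : a ∈ F.K) (q : ℚ)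
    (h : F.E a ∈ M.closure s) : F.E ((q : ℂ) * a) ∈ M.closure s := by
  refine cl_of_pow q.den_nz ?_
  rw [E_rat_pow F ha]
  exact cl_zpow _ h

/-- `E (q a)` is algebraic over `E a`. -/
theorem E_rat (F : Pool.Agent.Helper35.GF.ExpField) {a : ℂ} (ha : a ∈ F.K) (q : ℚ) :
    F.E ((q : ℂ) * a) ∈ M.closure {F.E a} :=
  cl_E_smul F ha q (cl_self rfl)

theorem cl_E_add (F : Pool.Agent.Helper35.GF.ExpField) {s : Set ℂ} {a b : ℂ} (ha : a ∈ F.K) (hb : b ∈ F.K)
    (h : F.E a ∈ M.closure s) (h' : F.E b ∈ M.closure s) : F.E (a + b) ∈ M.closure s := by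
  rw [F.E_add a ha b hb]
  exact cl_mul h h'

/-- The exponentials of the span of elements of the closure. -/
theorem cl_E_span (F : Pool.Agent.Helper35.GF.ExpField) {s T : Set ℂ} (hT : ∀ x ∈ T, x ∈ F.K ∧ F.E x ∈ M.closure s) :
    ∀ x ∈ span ℚ T, x ∈ F.K ∧ F.E x ∈ M.closure s := by
  intro x hx
  induction hx using Submodule.span_induction with
  | mem x hx => exact hT x hx
  | zero => exact ⟨zero_mem _, by rw [E_zero]; exact cl_one _⟩
  | add x y _ _ hx hy => exact ⟨add_mem hx.1 hy.1, cl_E_add F hx.1 hy.1 hx.2 hy.2⟩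
  | smul q x _ hx =>
    rw [Rat.smul_def]
    exact ⟨mul_mem (SubfieldClass.ratCast_mem F.K q) hx.1, cl_E_smul F hx.1 q hx.2⟩

theorem cl_span {s T : Set ℂ} (hT : ∀ x ∈ T, x ∈ M.closure s) :
    ∀ x ∈ span ℚ T, x ∈ M.closure s := by
  intro x hx
  induction hx using Submodule.span_induction with
  | mem x hx => exact hT x hx
  | zero => exact cl_zero _
  | add x y _ _ hx hy => exact cl_add hx hy
  | smul q x _ hx => exact cl_smul q hx

/-- A finite family which spans a complement. -/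
theorem exists_compl {A A1 : Submodule ℚ ℂ} (h : A ≤ A1) (hfin : FiniteDimensional ℚ A1) :
    ∃ (m : ℕ) (b : Fin m → ℂ), finrank ℚ A + m = finrank ℚ A1 ∧ (∀ j, b j ∈ A1) ∧
      A1 ≤ span ℚ ((A : Set ℂ) ∪ range b) := by
  obtain ⟨C, hC⟩ := Submodule.exists_isCompl (A.submoduleOf A1)
  have hdim := Submodule.finrank_add_eq_of_isCompl hC
  have hA : finrank ℚ (A.submoduleOf A1) = finrank ℚ A :=
    (Submodule.submoduleOfEquivOfLe h).finrank_eq
  let bs := Module.finBasis ℚ C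
  refine ⟨finrank ℚ C, fun j => ((bs j : A1) : ℂ), by rw [← hdim, hA], fun j => (bs j : A1).2, ?_⟩
  intro x hx
  have hx' : (⟨x, hx⟩ : A1) ∈ A.submoduleOf A1 ⊔ C := by rw [hC.sup_eq_top]; trivial
  obtain ⟨u, hu, c, hc, huc⟩ := Submodule.mem_sup.1 hx'
  have hx2 : x = (u : ℂ) + (c : ℂ) := by
    have := congrArg (fun y : A1 => (y : ℂ)) huc
    exact this.symm
  rw [hx2]
  refine add_mem (subset_span (Or.inl hu)) ?_
  have h1 : (⟨c, hc⟩ : C) ∈ span ℚ (range bs) := by rw [bs.span_eq]; trivial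
  have h2 : ∀ w ∈ span ℚ (range bs),
      (((w : C) : A1) : ℂ) ∈ span ℚ ((A : Set ℂ) ∪ range fun j => ((bs j : A1) : ℂ)) := by
    intro w hw
    induction hw using Submodule.span_induction with
    | mem w hw => obtain ⟨j, rfl⟩ := hw; exact subset_span (Or.inr ⟨j, rfl⟩)
    | zero => exact zero_mem _
    | add v w _ _ hv hw => exact add_mem hv hw
    | smul q v _ hv => exact smul_mem _ q hv
  exact h2 _ h1

theorem rk_fin {m : ℕ} (f : Fin m → ℂ) : M.eRk (range f) ≤ m := by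
  refine (M.eRk_le_encard _).trans ?_
  rw [← image_univ]
  refine (encard_image_le _ _).trans ?_
  rw [encard_univ]; simp

/-- Package GC. -/
theorem gc : S_GC := by
  intro F A A1 B B1 hA hB hfA hfB hK
  obtain ⟨m, a, hm, haA, haS⟩ := exists_compl hA hfA
  obtain ⟨n, b, hn, hbB, hbS⟩ := exists_compl hB hfB
  set R : Set ℂ := U F A B ∪ range (fun j => F.E (a j)) ∪ range b with hR
  have h1 : U F A1 B1 ⊆ M.closure R := by
    rintro x (⟨y, hy, rfl⟩ | hx)
    · refine (cl_E_span F (T := (A : Set ℂ) ∪ range a) ?_ y (haS hy)).2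
      rintro z (hz | ⟨j, rfl⟩)
      · exact ⟨hK _ (hA hz), cl_self (Or.inl (Or.inl (Or.inl ⟨z, hz, rfl⟩)))⟩
      · exact ⟨hK _ (haA j), cl_self (Or.inl (Or.inr ⟨j, rfl⟩))⟩
    · refine cl_span (T := (B : Set ℂ) ∪ range b) ?_ x (hbS hx)
      rintro z (hz | ⟨j, rfl⟩)
      · exact cl_self (Or.inl (Or.inl (Or.inr hz)))
      · exact cl_self (Or.inr ⟨j, rfl⟩)
  have h2 : M.eRk (U F A1 B1) ≤ M.eRk (U F A B) + m + n := by
    calc M.eRk (U F A1 B1) ≤ M.eRk (M.closure R) := M.eRk_mono h1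
      _ = M.eRk R := M.eRk_closure_eq _
      _ ≤ M.eRk (U F A B ∪ range (fun j => F.E (a j))) + M.eRk (range b) :=
        M.eRk_union_le_eRk_add_eRk _ _
      _ ≤ (M.eRk (U F A B) + M.eRk (range fun j => F.E (a j))) + M.eRk (range b) := by
        gcongr
        exact M.eRk_union_le_eRk_add_eRk _ _
      _ ≤ M.eRk (U F A B) + m + n := by
        gcongr
        · exact rk_fin _
        · exact rk_fin _
  rw [← hm, ← hn]
  push_cast
  calc M.eRk (U F A1 B1) + finrank ℚ A + finrank ℚ B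
      ≤ (M.eRk (U F A B) + m + n) + finrank ℚ A + finrank ℚ B := by gcongr
    _ = M.eRk (U F A B) + (finrank ℚ A + m) + (finrank ℚ B + n) := by ring

end Pool.Agent.Helper38.GL
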